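import Mathlib

open Filter Topology
open scoped ENNReal

namespace Pool.Agent.Results.MP_b50549_al.TwoWalks

/-- The distribution `μ^{*n}` after `n` steps of the random walk with step distribution `μ`. -/
noncomputable def convPow {G : Type} [Group G] (μ : PMF G) : ℕ → PMF G
  | 0 => PMF.pure 1
  | n + 1 => μ.bind fun g => (convPow μ n).map fun h => g * h

open Classical in
/-- `(μ^{*n})^{⊗d} {g : w(g) = 1}`. -/
noncomputable def lawMass {G : Type} [Group G] (μ : PMF G) {d : ℕ} (w : FreeGroup (Fin d))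
    (n : ℕ) : ℝ≥0∞ :=
  ∑' g : Fin d → G, if FreeGroup.lift g w = 1 then ∏ i, convPow μ n (g i) else 0

/-- `Pr_μ(w = 1 on G)`, the limsup of the probabilities that `d` independent `n`-step walks
satisfy `w`. -/
noncomputable def Pr {G : Type} [Group G] (μ : PMF G) {d : ℕ} (w : FreeGroup (Fin d)) : ℝ≥0∞ :=
  limsup (lawMass μ w) atTop

/-- `μ` is the step distribution of a random walk measure: finitely supported, the support
generates `G` (we even ask for generation as a monoid), and `μ(1) > 0`. -/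
def IsStep {G : Type} [Group G] (μ : PMF G) : Prop :=
  μ.support.Finite ∧ Submonoid.closure μ.support = ⊤ ∧ 0 < μ 1

/-! ### Walks driven by a finite uniform source -/

/-- The product `e(ω₀) e(ω₁) ⋯`. -/
def ev {G K : Type} [Group G] (e : K → G) {n : ℕ} (om : Fin n → K) : G :=
  (List.ofFn fun i => e (om i)).prod

theorem ev_cons {G K : Type} [Group G] (e : K → G) {n : ℕ} (k : K) (om : Fin n → K) :
    ev e (Fin.cons k om : Fin (n + 1) → K) = e k * ev e om := by
  simp [ev, List.ofFn_succ]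

theorem ev_zero {G K : Type} [Group G] (e : K → G) (om : Fin 0 → K) : ev e om = 1 := by
  simp [ev]

theorem ev_snoc {G K : Type} [Group G] (e : K → G) {n : ℕ} (om : Fin n → K) (k : K) :
    ev e (Fin.snoc om k : Fin (n + 1) → K) = ev e om * e k := by
  rw [ev, List.ofFn_succ']
  simp [ev, List.concat_eq_append]

theorem sum_cons {K M : Type} [Fintype K] [AddCommMonoid M] {n : ℕ}
    (F : (Fin (n + 1) → K) → M) :
    ∑ om, F om = ∑ k, ∑ om : Fin n → K, F (Fin.cons k om) := by
  rw [← Fintype.sum_prod_type']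
  exact (Fintype.sum_equiv (Fin.consEquiv fun _ => K) _ _ (fun _ => rfl)).symm

theorem sum_snoc {K M : Type} [Fintype K] [AddCommMonoid M] {n : ℕ}
    (F : (Fin (n + 1) → K) → M) :
    ∑ om, F om = ∑ k, ∑ om : Fin n → K, F (Fin.snoc om k) := by
  rw [← Fintype.sum_prod_type']
  exact (Fintype.sum_equiv (Fin.snocEquiv fun _ => K) _ _ (fun _ => rfl)).symm

open Classical in
theorem convPow_eq {G K : Type} [Group G] [Fintype K] [Nonempty K] (e : K → G) (n : ℕ) (g : G) :
    convPow ((PMF.uniformOfFintype K).map e) n g =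
      ∑ om : Fin n → K, if g = ev e om then ((Fintype.card K : ℝ≥0∞)⁻¹) ^ n else 0 := by
  induction n generalizing g with
  | zero =>
    simp [convPow, ev_zero, PMF.pure_apply]
  | succ n ih =>
    rw [convPow, PMF.bind_map, PMF.bind_apply, tsum_fintype, sum_cons]
    apply Finset.sum_congr rfl
    intro k _
    rw [PMF.uniformOfFintype_apply, Function.comp_apply]
    have h1 : (PMF.map (fun h => e k * h) (convPow ((PMF.uniformOfFintype K).map e) n)) g =
        convPow ((PMF.uniformOfFintype K).map e) n ((e k)⁻¹ * g) := by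
      rw [PMF.map_apply, tsum_eq_single ((e k)⁻¹ * g)]
      · simp
      · intro b hb
        rw [if_neg]
        rintro rfl
        simp at hb
    rw [h1, ih, Finset.mul_sum]
    apply Finset.sum_congr rfl
    intro om _
    rw [ev_cons]
    by_cases h : g = e k * ev e om
    · rw [if_pos (by rw [h]; simp), if_pos h, pow_succ, mul_comm]
    · rw [if_neg (by rwa [inv_mul_eq_iff_eq_mul]), if_neg h, mul_zero]

open Classical in
theorem lawMass_eq {G K : Type} [Group G] [Fintype K] [Nonempty K] (e : K → G)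
    (w : FreeGroup (Fin 2)) (n : ℕ) :
    lawMass ((PMF.uniformOfFintype K).map e) w n =
      (∑ x : Fin n → K, ∑ y : Fin n → K,
        if FreeGroup.lift ![ev e x, ev e y] w = 1 then (1 : ℝ≥0∞) else 0) *
        ((Fintype.card K : ℝ≥0∞)⁻¹) ^ (2 * n) := by
  set c : ℝ≥0∞ := (Fintype.card K : ℝ≥0∞)⁻¹ ^ n with hc
  have hc2 : (Fintype.card K : ℝ≥0∞)⁻¹ ^ (2 * n) = c * c := by rw [hc, two_mul, pow_add]
  rw [hc2]
  unfold lawMass
  have h1 : ∀ g : Fin 2 → G,
      (if FreeGroup.lift g w = 1 then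
        ∏ i, convPow ((PMF.uniformOfFintype K).map e) n (g i) else 0) =
      ∑' x : Fin n → K, ∑' y : Fin n → K, if g = ![ev e x, ev e y] then
        (if FreeGroup.lift ![ev e x, ev e y] w = 1 then (1 : ℝ≥0∞) else 0) * (c * c) else 0 := by
    intro g
    rw [Fin.prod_univ_two, convPow_eq, convPow_eq, tsum_fintype, ← hc, Finset.sum_mul]
    split_ifs with hg
    · apply Finset.sum_congr rfl
      intro x _
      rw [tsum_fintype, Finset.mul_sum]
      apply Finset.sum_congr rfl
      intro y _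
      by_cases h : g = ![ev e x, ev e y]
      · have h0 : g 0 = ev e x := by rw [h]; rfl
        have h1 : g 1 = ev e y := by rw [h]; rfl
        rw [if_pos h0, if_pos h1, if_pos h, ← h, if_pos hg, one_mul]
      · rw [if_neg h]
        by_cases h0 : g 0 = ev e x
        · have h1 : g 1 ≠ ev e y := by
            intro h1
            apply h
            funext i
            fin_cases i
            · exact h0
            · exact h1
          rw [if_neg h1, mul_zero]
        · rw [if_neg h0, zero_mul]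
    · symm
      apply Finset.sum_eq_zero
      intro x _
      rw [tsum_fintype]
      apply Finset.sum_eq_zero
      intro y _
      split_ifs with h1 h2
      · rw [h1] at hg
        exact absurd h2 hg
      · rw [zero_mul]
      · rfl
  rw [tsum_congr h1, ENNReal.tsum_comm, tsum_fintype, Finset.sum_mul]
  apply Finset.sum_congr rfl
  intro x _
  rw [ENNReal.tsum_comm, tsum_fintype, Finset.sum_mul]
  apply Finset.sum_congr rfl
  intro y _
  rw [tsum_ite_eq]

open Classical in
/-- Indicator function. -/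
noncomputable def ind (P : Prop) : ℝ := if P then 1 else 0

theorem ind_nonneg (P : Prop) : 0 ≤ ind P := by
  unfold ind; split_ifs <;> norm_num

theorem ind_le_one (P : Prop) : ind P ≤ 1 := by
  unfold ind; split_ifs <;> norm_num

theorem ind_mono {P Q : Prop} (h : P → Q) : ind P ≤ ind Q := by
  unfold ind
  by_cases hp : P
  · rw [if_pos hp, if_pos (h hp)]
  · rw [if_neg hp]; split_ifs <;> norm_num

theorem ind_true {P : Prop} (h : P) : ind P = 1 := by unfold ind; rw [if_pos h]

theorem ind_and_ge (P Q : Prop) : ind P + ind Q - 1 ≤ ind (P ∧ Q) := by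
  by_cases hp : P <;> by_cases hq : Q <;> simp [ind, hp, hq]

theorem lawMass_eq_ofReal {G K : Type} [Group G] [Fintype K] [Nonempty K] (e : K → G)
    (w : FreeGroup (Fin 2)) (n : ℕ) :
    lawMass ((PMF.uniformOfFintype K).map e) w n =
      ENNReal.ofReal ((∑ x : Fin n → K, ∑ y : Fin n → K,
        ind (FreeGroup.lift ![ev e x, ev e y] w = 1)) /
        (Fintype.card K : ℝ) ^ (2 * n)) := by
  classical
  have hK : (0 : ℝ) < Fintype.card K := by exact_mod_cast Fintype.card_pos
  rw [lawMass_eq, div_eq_mul_inv,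
    ENNReal.ofReal_mul (Finset.sum_nonneg fun x _ => Finset.sum_nonneg fun y _ => ind_nonneg _),
    ENNReal.ofReal_inv_of_pos (by positivity), ENNReal.ofReal_pow hK.le, ENNReal.ofReal_natCast,
    ENNReal.inv_pow]
  congr 1
  rw [ENNReal.ofReal_sum_of_nonneg (fun x _ => Finset.sum_nonneg fun y _ => ind_nonneg _)]
  apply Finset.sum_congr rfl
  intro x _
  rw [ENNReal.ofReal_sum_of_nonneg (fun y _ => ind_nonneg _)]
  apply Finset.sum_congr rfl
  intro y _
  unfold ind
  split_ifs <;> simp

/-! ### The group -/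

/-- The symmetric group on three letters. -/
abbrev H : Type := Equiv.Perm (Fin 3)

/-- The unrestricted wreath product `H ≀ ℤ`. -/
@[ext] structure W where
  /-- lamp configuration -/
  lamp : ℤ → H
  /-- position -/
  pos : ℤ

namespace W

instance : Mul W := ⟨fun g h => ⟨fun i => g.lamp i * h.lamp (i - g.pos), g.pos + h.pos⟩⟩
instance : One W := ⟨⟨fun _ => 1, 0⟩⟩
instance : Inv W := ⟨fun g => ⟨fun i => (g.lamp (i + g.pos))⁻¹, -g.pos⟩⟩

@[simp] theorem mul_lamp (g h : W) (i : ℤ) :
    (g * h).lamp i = g.lamp i * h.lamp (i - g.pos) := rfl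
@[simp] theorem mul_pos (g h : W) : (g * h).pos = g.pos + h.pos := rfl
@[simp] theorem one_lamp (i : ℤ) : (1 : W).lamp i = 1 := rfl
@[simp] theorem one_pos : (1 : W).pos = 0 := rfl
@[simp] theorem inv_lamp (g : W) (i : ℤ) : (g⁻¹).lamp i = (g.lamp (i + g.pos))⁻¹ := rfl
@[simp] theorem inv_pos (g : W) : (g⁻¹).pos = -g.pos := rfl

instance : Group W where
  mul_assoc g h k := by
    ext1
    · funext i
      simp only [mul_lamp, mul_pos, mul_assoc, sub_sub]
    · simp [add_assoc]
  one_mul g := by ext1 <;> simp [funext_iff]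
  mul_one g := by ext1 <;> simp [funext_iff]
  inv_mul_cancel g := by
    ext1
    · funext i
      simp
    · simp

/-- Moving by `k`. -/
def t (k : ℤ) : W := ⟨fun _ => 1, k⟩
/-- Multiplying the lamp at `j` by `h`. -/
def sw (j : ℤ) (h : H) : W := ⟨fun i => if i = j then h else 1, 0⟩

@[simp] theorem t_lamp (k i : ℤ) : (t k).lamp i = 1 := rfl
@[simp] theorem t_pos (k : ℤ) : (t k).pos = k := rfl
@[simp] theorem sw_lamp (j : ℤ) (h : H) (i : ℤ) : (sw j h).lamp i = if i = j then h else 1 := rfl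
@[simp] theorem sw_pos (j : ℤ) (h : H) : (sw j h).pos = 0 := rfl

theorem sw_mul_sw (j : ℤ) (g h : H) : sw j g * sw j h = sw j (g * h) := by
  ext1
  · funext i
    by_cases hi : i = j <;> simp [hi]
  · simp

theorem sw_comm {j k : ℤ} (hjk : j ≠ k) (g h : H) : sw j g * sw k h = sw k h * sw j g := by
  ext1
  · funext i
    by_cases hi : i = j
    · subst hi
      simp [hjk]
    · simp [hi]
  · simp

theorem sw_mul_t (j k : ℤ) (h : H) : sw j h * t k = t k * sw (j - k) h := by
  ext1
  · funext i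
    simp
  · simp

theorem sw_one (j : ℤ) : sw j 1 = 1 := by
  ext1
  · funext i
    simp
  · simp

theorem t_mul (j k : ℤ) : t j * t k = t (j + k) := by
  ext1
  · funext i
    simp
  · simp

theorem t_zero : t 0 = 1 := rfl

end W

open W

/-- The generators of the group. -/
def gens : Set W := {g | g = t 1 ∨ ∃ h, g = sw 0 h}

/-- The group: the wreath product of the symmetric group on three letters with `ℤ`,
as the subgroup generated by `t` and the lamps at `0`. -/
abbrev G : Type := ↥(Subgroup.closure gens)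

theorem t_mem (k : ℤ) : t k ∈ Subgroup.closure gens := by
  have h1 : t 1 ∈ Subgroup.closure gens := Subgroup.subset_closure (Or.inl rfl)
  have h2 : ∀ n : ℕ, t n ∈ Subgroup.closure gens := by
    intro n
    induction n with
    | zero => exact one_mem _
    | succ n ih =>
      have := mul_mem ih h1
      rw [t_mul] at this
      exact_mod_cast this
  obtain ⟨n, rfl | rfl⟩ := k.eq_nat_or_neg
  · exact h2 n
  · have h3 := inv_mem (h2 n)
    have h4 : (t (n : ℤ))⁻¹ = t (-n) := by
      rw [inv_eq_iff_mul_eq_one, t_mul, add_neg_cancel, t_zero]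
    rwa [h4] at h3

theorem sw_mem (h : H) : sw 0 h ∈ Subgroup.closure gens :=
  Subgroup.subset_closure (Or.inr ⟨h, rfl⟩)

/-- The commutator `a b a⁻¹ b⁻¹`. -/
def comm {M : Type} [Group M] (a b : M) : M := a * b * a⁻¹ * b⁻¹

/-- The word `[[x, y], [x⁻¹, y⁻¹]]`. -/
def word : FreeGroup (Fin 2) :=
  comm (comm (FreeGroup.of 0) (FreeGroup.of 1)) (comm (FreeGroup.of 0)⁻¹ (FreeGroup.of 1)⁻¹)

/-- The word evaluated at two elements. -/
def wv {M : Type} [Group M] (x y : M) : M := comm (comm x y) (comm x⁻¹ y⁻¹)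

theorem lift_word {M : Type} [Group M] (x y : M) : FreeGroup.lift ![x, y] word = wv x y := by
  simp [word, wv, comm]

theorem wv_coe (x y : G) : ((wv x y : G) : W) = wv (x : W) (y : W) := by
  simp [wv, comm]

theorem comm_eq_one_iff {M : Type} [Group M] (a b : M) : comm a b = 1 ↔ a * b = b * a := by
  rw [comm, mul_inv_eq_one, mul_inv_eq_iff_eq_mul]

theorem ev_coe {K : Type} (e : K → G) {n : ℕ} (om : Fin n → K) :
    ((ev e om : G) : W) = ev (fun k => (e k : W)) om := by
  have := map_list_prod (Subgroup.closure gens).subtype (List.ofFn (fun j => e (om j)))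
  rw [List.map_ofFn] at this
  exact this

/-- Two positive elements whose lamps lie in `[0, pos)` satisfy the word. -/
theorem wv_eq_one {x y : W} (hx0 : ∀ i < 0, x.lamp i = 1) (hx1 : ∀ i ≥ x.pos, x.lamp i = 1)
    (hy0 : ∀ i < 0, y.lamp i = 1) (hy1 : ∀ i ≥ y.pos, y.lamp i = 1)
    (hx : 0 ≤ x.pos) (hy : 0 ≤ y.pos) : wv x y = 1 := by
  rw [wv, comm_eq_one_iff]
  ext1
  · funext i
    simp only [comm, mul_lamp, mul_pos, inv_lamp, inv_pos]
    rcases lt_or_ge i 0 with hi | hi
    · have e1 : x.lamp i = 1 := hx0 _ hi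
      have e2 : y.lamp (i - x.pos) = 1 := hy0 _ (by linarith)
      have e3 : y.lamp i = 1 := hy0 _ hi
      have e4 : x.lamp (i - y.pos) = 1 := hx0 _ (by linarith)
      ring_nf
      ring_nf at e2 e4
      simp [e1, e2, e3, e4]
    · have e1 : x.lamp (i + x.pos) = 1 := hx1 _ (by linarith)
      have e2 : y.lamp (i + x.pos + y.pos) = 1 := hy1 _ (by linarith)
      have e3 : x.lamp (i + x.pos + y.pos) = 1 := hx1 _ (by linarith)
      have e4 : y.lamp (i + y.pos) = 1 := hy1 _ (by linarith)
      ring_nf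
      ring_nf at e1 e2 e3 e4
      simp [e1, e2, e3, e4]
  · simp [comm]

/-! ### The walk with drift -/

/-- The twenty equally likely steps of the walk with drift: `t` (sixteen times), `t⁻¹`, two lamp
involutions, and the identity. -/
def stepNu : Fin 20 → G := fun k =>
  if k.val < 16 then ⟨t 1, t_mem 1⟩ else if k.val = 16 then ⟨t (-1), t_mem (-1)⟩
  else if k.val = 17 then ⟨sw 0 (Equiv.swap 0 1), sw_mem _⟩
  else if k.val = 18 then ⟨sw 0 (Equiv.swap 1 2), sw_mem _⟩ else 1

/-- The step distribution with drift. -/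
noncomputable def nu : PMF G := (PMF.uniformOfFintype (Fin 20)).map stepNu

/-- The steps as elements of `W`. -/
def eNu (k : Fin 20) : W := (stepNu k : W)

theorem sum_eNu (F : W → ℝ) :
    ∑ k, F (eNu k) = 16 * F (t 1) + F (t (-1)) + F (sw 0 (Equiv.swap 0 1)) +
      F (sw 0 (Equiv.swap 1 2)) + F 1 := by
  simp [Fin.sum_univ_succ, eNu, stepNu]
  ring

/-- The gambler's ruin recursion. -/
theorem ruin (F : ℕ → ℕ → ℝ) (h0 : ∀ m, 1 ≤ F 0 (m + 1)) (hn : ∀ n m, 0 ≤ F n m)
    (hs : ∀ n m, 16 * F n (m + 2) + F n m + 3 * F n (m + 1) ≤ F (n + 1) (m + 1)) (n m : ℕ) :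
    (1 - (1 / 16) ^ m) * 20 ^ n ≤ F n m := by
  induction n generalizing m with
  | zero =>
    cases m with
    | zero => simpa using hn 0 0
    | succ m =>
      have h1 := h0 m
      have h2 : (0 : ℝ) < (1 / 16) ^ (m + 1) := by positivity
      rw [pow_zero, mul_one]
      linarith
  | succ n ih =>
    cases m with
    | zero => simpa using hn (n + 1) 0
    | succ m =>
      have h1 := hs n m
      have h2 := ih (m + 2)
      have h3 := ih m
      have h4 := ih (m + 1)
      have h5 : (1 - (1 / 16 : ℝ) ^ (m + 1)) * 20 ^ (n + 1) =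
          16 * ((1 - (1 / 16) ^ (m + 2)) * 20 ^ n) + (1 - (1 / 16) ^ m) * 20 ^ n +
            3 * ((1 - (1 / 16) ^ (m + 1)) * 20 ^ n) := by ring
      rw [h5]
      linarith

/-- `t^{m-1} x` ends at a nonnegative position and has its lamps in `[0, ∞)`. -/
def PA (m : ℕ) (x : W) : Prop := 0 ≤ x.pos + (m - 1) ∧ ∀ i < 0, x.lamp (i - (m - 1)) = 1

/-- The lamps of `x` are strictly below `pos x + m`. -/
def PB (m : ℕ) (x : W) : Prop := ∀ i ≥ x.pos + m, x.lamp i = 1

theorem sum_PA (n : ℕ) :
    15 / 16 * 20 ^ n ≤ ∑ om : Fin n → Fin 20, ind (PA 1 (ev eNu om)) := by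
  have h := ruin (fun n m => ∑ om : Fin n → Fin 20, ind (PA m (ev eNu om))) (by
      intro m
      simp only [Finset.univ_unique, Finset.sum_singleton, ev_zero]
      rw [ind_true]
      refine ⟨by simp, fun i _ => rfl⟩) (fun n m => Finset.sum_nonneg fun _ _ => ind_nonneg _)
    (by
      intro n m
      rw [sum_cons]
      simp only [ev_cons]
      rw [sum_eNu (fun g => ∑ om : Fin n → Fin 20, ind (PA (m + 1) (g * ev eNu om)))]
      have h1 : ∑ om : Fin n → Fin 20, ind (PA (m + 2) (ev eNu om)) ≤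
          ∑ om : Fin n → Fin 20, ind (PA (m + 1) (t 1 * ev eNu om)) := by
        apply Finset.sum_le_sum
        intro om _
        apply ind_mono
        rintro ⟨ha, hb⟩
        refine ⟨by simp only [mul_pos, t_pos]; push_cast at ha ⊢; linarith, fun i hi => ?_⟩
        have := hb i hi
        simp only [mul_lamp, t_lamp, t_pos, one_mul]
        convert this using 2
        push_cast
        ring
      have h2 : ∑ om : Fin n → Fin 20, ind (PA m (ev eNu om)) ≤
          ∑ om : Fin n → Fin 20, ind (PA (m + 1) (t (-1) * ev eNu om)) := by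
        apply Finset.sum_le_sum
        intro om _
        apply ind_mono
        rintro ⟨ha, hb⟩
        refine ⟨by simp only [mul_pos, t_pos]; push_cast at ha ⊢; linarith, fun i hi => ?_⟩
        have := hb i hi
        simp only [mul_lamp, t_lamp, t_pos, one_mul]
        convert this using 2
        push_cast
        ring
      have h3 : ∀ h : H, ∑ om : Fin n → Fin 20, ind (PA (m + 1) (ev eNu om)) ≤
          ∑ om : Fin n → Fin 20, ind (PA (m + 1) (sw 0 h * ev eNu om)) := by
        intro h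
        apply Finset.sum_le_sum
        intro om _
        apply ind_mono
        rintro ⟨ha, hb⟩
        refine ⟨by simpa using ha, fun i hi => ?_⟩
        have := hb i hi
        simp only [mul_lamp, sw_lamp, sw_pos, sub_zero]
        rw [this, mul_one, if_neg]
        push_cast
        omega
      have h4 := h3 (Equiv.swap 0 1)
      have h5 := h3 (Equiv.swap 1 2)
      simp only [one_mul]
      linarith) n 1
  norm_num at h
  norm_num
  exact h

theorem sum_PB (n : ℕ) :
    3 / 4 * 20 ^ (n + 1) ≤ ∑ om : Fin (n + 1) → Fin 20, ind (PB 0 (ev eNu om)) := by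
  have hstep : ∀ n m : ℕ, ∀ z : ℤ, ∑ om : Fin n → Fin 20, ind (PB (m + 1) (ev eNu om)) ≤
          ∑ om : Fin n → Fin 20, ind (PB m (ev eNu om * t 1)) := by
    intro n m z
    apply Finset.sum_le_sum
    intro om _
    apply ind_mono
    intro hb i hi
    simp only [mul_lamp, t_lamp, mul_one]
    apply hb
    simp only [mul_pos, t_pos] at hi
    push_cast
    linarith
  have h := ruin (fun n m => ∑ om : Fin n → Fin 20, ind (PB m (ev eNu om))) (by
      intro m
      simp only [Finset.univ_unique, Finset.sum_singleton, ev_zero]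
      rw [ind_true]
      intro i _
      rfl) (fun n m => Finset.sum_nonneg fun _ _ => ind_nonneg _)
    (by
      intro n m
      rw [sum_snoc]
      simp only [ev_snoc]
      rw [sum_eNu (fun g => ∑ om : Fin n → Fin 20, ind (PB (m + 1) (ev eNu om * g)))]
      have h1 := hstep n (m + 1) 0
      have h2 : ∑ om : Fin n → Fin 20, ind (PB m (ev eNu om)) ≤
          ∑ om : Fin n → Fin 20, ind (PB (m + 1) (ev eNu om * t (-1))) := by
        apply Finset.sum_le_sum
        intro om _
        apply ind_mono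
        intro hb i hi
        simp only [mul_lamp, t_lamp, mul_one]
        apply hb
        simp only [mul_pos, t_pos] at hi
        push_cast at hi
        linarith
      have h3 : ∀ h : H, ∑ om : Fin n → Fin 20, ind (PB (m + 1) (ev eNu om)) ≤
          ∑ om : Fin n → Fin 20, ind (PB (m + 1) (ev eNu om * sw 0 h)) := by
        intro h
        apply Finset.sum_le_sum
        intro om _
        apply ind_mono
        intro hb i hi
        simp only [mul_pos, sw_pos, add_zero] at hi
        simp only [mul_lamp, sw_lamp]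
        rw [hb i hi, one_mul, if_neg]
        push_cast at hi
        omega
      have h4 := h3 (Equiv.swap 0 1)
      have h5 := h3 (Equiv.swap 1 2)
      simp only [mul_one]
      linarith) n 1
  rw [sum_snoc]
  simp only [ev_snoc]
  rw [sum_eNu (fun g => ∑ om : Fin n → Fin 20, ind (PB 0 (ev eNu om * g)))]
  have h1 := hstep n 0 0
  have h2 : ∀ g : W, 0 ≤ ∑ om : Fin n → Fin 20, ind (PB 0 (ev eNu om * g)) :=
    fun g => Finset.sum_nonneg fun _ _ => ind_nonneg _
  have h3 := h2 (t (-1))
  have h4 := h2 (sw 0 (Equiv.swap 0 1))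
  have h5 := h2 (sw 0 (Equiv.swap 1 2))
  have h6 := h2 1
  rw [pow_succ]
  norm_num at h1 h h3 h4 h5 h6 ⊢
  linarith

theorem sum_good (n : ℕ) : 11 / 16 * 20 ^ (n + 1) ≤
    ∑ om : Fin (n + 1) → Fin 20, ind (PA 1 (ev eNu om) ∧ PB 0 (ev eNu om)) := by
  have h1 := sum_PA (n + 1)
  have h2 := sum_PB n
  have h3 : ∑ om : Fin (n + 1) → Fin 20, (ind (PA 1 (ev eNu om)) + ind (PB 0 (ev eNu om)) - 1) ≤
      ∑ om : Fin (n + 1) → Fin 20, ind (PA 1 (ev eNu om) ∧ PB 0 (ev eNu om)) :=
    Finset.sum_le_sum fun om _ => ind_and_ge _ _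
  rw [Finset.sum_sub_distrib, Finset.sum_add_distrib] at h3
  simp only [Finset.sum_const, Finset.card_univ, Fintype.card_pi, Fintype.card_fin,
    Finset.prod_const, nsmul_eq_mul, mul_one] at h3
  push_cast at h3
  linarith

theorem good_pair {x y : W} (hx : PA 1 x ∧ PB 0 x) (hy : PA 1 y ∧ PB 0 y) : wv x y = 1 := by
  apply wv_eq_one
  · intro i hi; simpa using hx.1.2 i hi
  · intro i hi; exact hx.2 i (by simpa using hi)
  · intro i hi; simpa using hy.1.2 i hi
  · intro i hi; exact hy.2 i (by simpa using hi)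
  · simpa using hx.1.1
  · simpa using hy.1.1

theorem Pr_nu_pos : 0 < Pr nu word := by
  classical
  have key : ∀ n : ℕ, ENNReal.ofReal ((11 / 16) ^ 2) ≤ lawMass nu word (n + 1) := by
    intro n
    rw [nu, lawMass_eq_ofReal]
    apply ENNReal.ofReal_le_ofReal
    rw [le_div_iff₀ (by positivity), Fintype.card_fin]
    have h1 : (∑ x : Fin (n + 1) → Fin 20, ind (PA 1 (ev eNu x) ∧ PB 0 (ev eNu x))) *
        (∑ y : Fin (n + 1) → Fin 20, ind (PA 1 (ev eNu y) ∧ PB 0 (ev eNu y))) ≤
        ∑ x : Fin (n + 1) → Fin 20, ∑ y : Fin (n + 1) → Fin 20,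
          ind (FreeGroup.lift ![ev stepNu x, ev stepNu y] word = 1) := by
      rw [Finset.sum_mul_sum]
      apply Finset.sum_le_sum
      intro x _
      apply Finset.sum_le_sum
      intro y _
      by_cases hx : PA 1 (ev eNu x) ∧ PB 0 (ev eNu x)
      · by_cases hy : PA 1 (ev eNu y) ∧ PB 0 (ev eNu y)
        · rw [ind_true hx, ind_true hy, mul_one, ind_true]
          rw [lift_word]
          apply Subtype.ext
          rw [wv_coe, ev_coe, ev_coe]
          exact good_pair hx hy
        · have : ind (PA 1 (ev eNu y) ∧ PB 0 (ev eNu y)) = 0 := by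
            unfold ind; rw [if_neg hy]
          rw [this, mul_zero]
          exact ind_nonneg _
      · have : ind (PA 1 (ev eNu x) ∧ PB 0 (ev eNu x)) = 0 := by
          unfold ind; rw [if_neg hx]
        rw [this, zero_mul]
        exact ind_nonneg _
    have h2 := sum_good n
    calc (11 / 16 : ℝ) ^ 2 * ((20 : ℕ) : ℝ) ^ (2 * (n + 1))
        = (11 / 16 * 20 ^ (n + 1)) * (11 / 16 * 20 ^ (n + 1)) := by
          push_cast
          rw [two_mul, pow_add]
          ring
      _ ≤ _ := mul_le_mul h2 h2 (by positivity)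
          (Finset.sum_nonneg fun _ _ => ind_nonneg _)
      _ ≤ _ := h1
  have h2 : ENNReal.ofReal ((11 / 16) ^ 2) ≤ Pr nu word := by
    refine le_trans ?_ liminf_le_limsup
    refine le_liminf_of_le (by isBoundedDefault) ?_
    filter_upwards [eventually_ge_atTop 1] with n hn
    obtain ⟨m, rfl⟩ := Nat.exists_eq_add_of_le hn
    rw [add_comm]
    exact key m
  refine lt_of_lt_of_le ?_ h2
  rw [ENNReal.ofReal_pos]
  norm_num

/-! ### The symmetric walk -/

/-- The displacement coded by two fair bits: `-1, 0, 0, 1`. -/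
def zz (p : Bool × Bool) : ℤ := (if p.1 then 1 else 0) + (if p.2 then 1 else 0) - 1

/-- The steps of the symmetric walk: switch, walk, switch. -/
def stepMu : (Bool × Bool) × (H × H) → G := fun k =>
  ⟨sw 0 k.2.1, sw_mem _⟩ * ⟨t (zz k.1), t_mem _⟩ * ⟨sw 0 k.2.2, sw_mem _⟩

/-- The symmetric step distribution. -/
noncomputable def mu : PMF G := (PMF.uniformOfFintype ((Bool × Bool) × (H × H))).map stepMu

/-- The steps as elements of `W`. -/
def eMu (k : (Bool × Bool) × (H × H)) : W := sw 0 k.2.1 * t (zz k.1) * sw 0 k.2.2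

/-- The walk with path `p` and lamp choices `l`. -/
def xx {n : ℕ} (p : Fin n → Bool × Bool) (l : Fin n → H × H) : W := ev eMu fun i => (p i, l i)

theorem xx_cons {n : ℕ} (p0 : Bool × Bool) (p : Fin n → Bool × Bool) (l0 : H × H)
    (l : Fin n → H × H) : xx (Fin.cons p0 p : Fin (n + 1) → Bool × Bool)
      (Fin.cons l0 l : Fin (n + 1) → H × H) = sw 0 l0.1 * t (zz p0) * sw 0 l0.2 * xx p l := by
  have : (fun i => ((Fin.cons p0 p : Fin (n + 1) → Bool × Bool) i,
      (Fin.cons l0 l : Fin (n + 1) → H × H) i)) =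
      (Fin.cons (p0, l0) (fun i => (p i, l i)) : Fin (n + 1) → (Bool × Bool) × (H × H)) := by
    funext i
    refine Fin.cases ?_ (fun j => ?_) i
    · rfl
    · rfl
  rw [xx, this, ev_cons]
  rfl

theorem sum_split {A B : Type} [Fintype A] [Fintype B] {n : ℕ} (F : (Fin n → A × B) → ℝ) :
    ∑ om, F om = ∑ p : Fin n → A, ∑ l : Fin n → B, F (fun i => (p i, l i)) := by
  rw [← Fintype.sum_prod_type']
  exact Fintype.sum_equiv (Equiv.arrowProdEquivProdArrow (Fin n) (fun _ => A) (fun _ => B)) _ _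
    (fun om => rfl)

/-- The walk starting at `0` with steps `l` departs at some time from `j`. -/
def vis : List (Bool × Bool) → ℤ → Prop
  | [], _ => False
  | p :: l, j => j = 0 ∨ vis l (j - zz p)

theorem move_past {j z : ℤ} (hj : j ≠ 0) (hjz : j ≠ z) (κ h h' : H) :
    sw j κ * (sw 0 h * t z * sw 0 h') = sw 0 h * t z * sw 0 h' * sw (j - z) κ := by
  calc sw j κ * (sw 0 h * t z * sw 0 h') = (sw j κ * sw 0 h) * t z * sw 0 h' := by
        simp only [mul_assoc]
    _ = sw 0 h * (sw j κ * t z) * sw 0 h' := by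
        rw [sw_comm hj]
        simp only [mul_assoc]
    _ = sw 0 h * t z * (sw (j - z) κ * sw 0 h') := by
        rw [sw_mul_t]
        simp only [mul_assoc]
    _ = _ := by
        rw [sw_comm (sub_ne_zero.2 hjz)]
        simp only [mul_assoc]

theorem inv_site {n : ℕ} (p : Fin n → Bool × Bool) (j : ℤ) (κ : H) (F : W → ℝ)
    (hv : vis (List.ofFn p) j) : ∑ l, F (xx p l) = ∑ l, F (sw j κ * xx p l) := by
  induction n generalizing j F with
  | zero => simp [vis] at hv
  | succ n ih =>
    rw [← Fin.cons_self_tail p] at hv ⊢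
    set p0 := p 0
    set p' := Fin.tail p
    rw [List.ofFn_cons] at hv
    rw [sum_cons, sum_cons]
    simp only [xx_cons]
    by_cases hj : j = 0
    · subst hj
      refine (Fintype.sum_equiv ((Equiv.mulLeft κ).prodCongr (Equiv.refl H)) _ _ ?_).symm
      rintro ⟨h, h'⟩
      apply Finset.sum_congr rfl
      intro l _
      congr 1
      simp only [Equiv.prodCongr_apply, Prod.map_apply, Equiv.coe_mulLeft, Equiv.refl_apply]
      rw [← sw_mul_sw]
      simp only [mul_assoc]
    · have hv' : vis (List.ofFn p') (j - zz p0) := by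
        rcases hv with h | h
        · exact absurd h hj
        · exact h
      by_cases hjz : j = zz p0
      · refine (Fintype.sum_equiv ((Equiv.refl H).prodCongr (Equiv.mulLeft κ)) _ _ ?_).symm
        rintro ⟨h, h'⟩
        apply Finset.sum_congr rfl
        intro l _
        congr 1
        simp only [Equiv.prodCongr_apply, Prod.map_apply, Equiv.coe_mulLeft, Equiv.refl_apply]
        rw [← sw_mul_sw, ← mul_assoc, ← mul_assoc, ← mul_assoc, sw_comm hj,
          mul_assoc (sw 0 h), sw_mul_t, hjz, sub_self]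
        simp only [mul_assoc]
      · apply Finset.sum_congr rfl
        rintro ⟨h, h'⟩ _
        rw [ih p' (j - zz p0) (fun g => F (sw 0 h * t (zz p0) * sw 0 h' * g)) hv']
        apply Finset.sum_congr rfl
        intro l _
        congr 1
        simp only
        rw [← mul_assoc, ← mul_assoc, move_past hj hjz]

/-- The product of the lamps `u 0, …, u (L-1)` at the sites `0, …, L-1`. -/
def UU (u : ℕ → H) : ℕ → W
  | 0 => 1
  | l + 1 => sw l (u l) * UU u l

theorem UU_pos (u : ℕ → H) (L : ℕ) : (UU u L).pos = 0 := by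
  induction L with
  | zero => rfl
  | succ l ih => simp [UU, ih]

theorem UU_lamp_out (u : ℕ → H) (L : ℕ) (i : ℤ) (hi : i < 0 ∨ L ≤ i) : (UU u L).lamp i = 1 := by
  induction L with
  | zero => rfl
  | succ l ih =>
    rw [UU, mul_lamp, sw_lamp, sw_pos, sub_zero, ih, mul_one, if_neg]
    · push_cast at hi; omega
    · push_cast at hi; omega

theorem UU_lamp_in (u : ℕ → H) (L : ℕ) (i : ℕ) (hi : i < L) : (UU u L).lamp i = u i := by
  induction L with
  | zero => omega
  | succ l ih =>
    rw [UU, mul_lamp, sw_lamp, sw_pos, sub_zero]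
    rcases Nat.lt_succ_iff_lt_or_eq.1 hi with h | h
    · rw [ih h, if_neg (by exact_mod_cast h.ne), one_mul]
    · subst h
      rw [if_pos rfl, UU_lamp_out u i i (Or.inr le_rfl), mul_one]

theorem inv_UU {n : ℕ} (p : Fin n → Bool × Bool) (L : ℕ) (u : ℕ → H) (F : W → ℝ)
    (hv : ∀ j : ℕ, j < L → vis (List.ofFn p) j) :
    ∑ l, F (xx p l) = ∑ l, F (UU u L * xx p l) := by
  induction L generalizing F with
  | zero => simp [UU]
  | succ L ih =>
    rw [inv_site p L (u L) F (hv L (Nat.lt_succ_self L)),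
      ih (fun g => F (sw L (u L) * g)) (fun j hj => hv j (by omega))]
    simp only [UU, mul_assoc]

/-- Extension of a function on `Fin L` by `1`. -/
def ext {L : ℕ} (u : Fin L → H) : ℕ → H := fun k => if h : k < L then u ⟨k, h⟩ else 1

theorem inv_avg {n m : ℕ} (p : Fin n → Bool × Bool) (q : Fin m → Bool × Bool) (L : ℕ)
    (F : W → W → ℝ)
    (hp : ∀ j : ℕ, j < L → vis (List.ofFn p) j) (hq : ∀ j : ℕ, j < L → vis (List.ofFn q) j) :
    (∑ l, ∑ l', F (xx p l) (xx q l')) * 36 ^ L =
      ∑ l, ∑ l', ∑ u : Fin L → H, ∑ v : Fin L → H, F (UU (ext u) L * xx p l)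
        (UU (ext v) L * xx q l') := by
  have h1 : ∀ u v : Fin L → H, ∑ l, ∑ l', F (xx p l) (xx q l') =
      ∑ l, ∑ l', F (UU (ext u) L * xx p l) (UU (ext v) L * xx q l') := by
    intro u v
    rw [inv_UU p L (ext u) (fun g => ∑ l', F g (xx q l')) hp]
    apply Finset.sum_congr rfl
    intro l _
    exact inv_UU q L (ext v) (fun g => F (UU (ext u) L * xx p l) g) hq
  have h2 : ∑ _u : Fin L → H, ∑ _v : Fin L → H, (∑ l, ∑ l', F (xx p l) (xx q l')) =
      ∑ u : Fin L → H, ∑ v : Fin L → H,
        ∑ l, ∑ l', F (UU (ext u) L * xx p l) (UU (ext v) L * xx q l') :=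
    Finset.sum_congr rfl fun u _ => Finset.sum_congr rfl fun v _ => h1 u v
  have h3 : ∑ _u : Fin L → H, ∑ _v : Fin L → H, (∑ l, ∑ l', F (xx p l) (xx q l')) =
      (∑ l, ∑ l', F (xx p l) (xx q l')) * 36 ^ L := by
    simp only [Finset.sum_const, Finset.card_univ, Fintype.card_pi, Finset.prod_const,
      Fintype.card_fin, nsmul_eq_mul, Fintype.card_perm]
    have : (36 : ℝ) ^ L = 6 ^ L * 6 ^ L := by rw [← mul_pow]; norm_num
    rw [this]
    simp [Nat.factorial]
    ring
  rw [← h3, h2]
  have h4 : (∑ uv : (Fin L → H) × (Fin L → H), ∑ ll : (Fin n → H × H) × (Fin m → H × H),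
      F (UU (ext uv.1) L * xx p ll.1) (UU (ext uv.2) L * xx q ll.2)) =
      ∑ ll : (Fin n → H × H) × (Fin m → H × H), ∑ uv : (Fin L → H) × (Fin L → H),
        F (UU (ext uv.1) L * xx p ll.1) (UU (ext uv.2) L * xx q ll.2) := Finset.sum_comm
  simp only [Fintype.sum_prod_type (α₁ := Fin L → H),
    Fintype.sum_prod_type (α₁ := Fin n → H × H)] at h4
  exact h4

/-! ### The lamp computation -/

/-- The commutator equation at a site. -/
theorem site_eq {x y : W} (h : wv x y⁻¹ = 1) (i : ℤ) :
    (x.lamp i * ((y.lamp (i - x.pos + y.pos))⁻¹ * (x.lamp (i + y.pos))⁻¹ * y.lamp (i + y.pos))) *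
      ((x.lamp (i + x.pos))⁻¹ * y.lamp (i + x.pos) * x.lamp (i + x.pos - y.pos) *
        (y.lamp i)⁻¹) =
    ((x.lamp (i + x.pos))⁻¹ * y.lamp (i + x.pos) * x.lamp (i + x.pos - y.pos) *
        (y.lamp i)⁻¹) *
    (x.lamp i * ((y.lamp (i - x.pos + y.pos))⁻¹ * (x.lamp (i + y.pos))⁻¹ *
      y.lamp (i + y.pos))) := by
  rw [wv, comm_eq_one_iff] at h
  have h2 := congrArg (fun g : W => g.lamp i) h
  simp only [comm, mul_lamp, mul_pos, inv_lamp, inv_pos, inv_inv] at h2
  ring_nf at h2
  ring_nf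
  simp only [mul_assoc] at h2 ⊢
  exact h2

theorem count_comm (α β : H) :
    ∑ κ : H, ∑ κ' : H, ind ((κ * α) * (β * κ'⁻¹) = (β * κ'⁻¹) * (κ * α)) = 18 := by
  have h1 : ∑ κ : H, ∑ κ' : H, ind ((κ * α) * (β * κ'⁻¹) = (β * κ'⁻¹) * (κ * α)) =
      ∑ p : H, ∑ q : H, ind (p * q = q * p) := by
    refine Fintype.sum_equiv (Equiv.mulRight α) _ _ fun κ => ?_
    refine Fintype.sum_equiv ((Equiv.inv H).trans (Equiv.mulLeft β)) _ _ fun κ' => ?_
    simp
  rw [h1]
  have h2 : ∀ p q : H, ind (p * q = q * p) = ((if p * q = q * p then 1 else 0 : ℕ) : ℝ) := by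
    intro p q
    unfold ind
    split_ifs <;> simp
  simp only [h2]
  have h3 : (∑ p : H, ∑ q : H, (if p * q = q * p then 1 else 0 : ℕ)) = 18 := by decide
  exact_mod_cast h3

/-- For positions at distance at least `L` from each other, at most `18^L` of the `36^L`
modifications satisfy the word. -/
theorem count_pair (L : ℕ) (x y : W) (hx : (L : ℤ) ≤ |x.pos|) (hy : (L : ℤ) ≤ |y.pos|)
    (hxy : (L : ℤ) ≤ |x.pos - y.pos|) :
    ∑ u : Fin L → H, ∑ v : Fin L → H,
      ind (wv (UU (ext u) L * x) (UU (ext v) L * y)⁻¹ = 1) ≤ 18 ^ L := by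
  set α : Fin L → H := fun j => x.lamp j * ((y.lamp (j - x.pos + y.pos))⁻¹ *
    (x.lamp (j + y.pos))⁻¹ * y.lamp (j + y.pos)) with hα
  set β : Fin L → H := fun j => (x.lamp (j + x.pos))⁻¹ * y.lamp (j + x.pos) *
    x.lamp (j + x.pos - y.pos) * (y.lamp j)⁻¹ with hβ
  have hout : ∀ (w : ℕ → H) (i : ℤ), (i < 0 ∨ (L : ℤ) ≤ i) → (UU w L).lamp i = 1 :=
    fun w i hi => UU_lamp_out w L i hi
  have h1 : ∀ u v : Fin L → H, ind (wv (UU (ext u) L * x) (UU (ext v) L * y)⁻¹ = 1) ≤
      ∏ j, ind ((u j * α j) * (β j * (v j)⁻¹) = (β j * (v j)⁻¹) * (u j * α j)) := by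
    intro u v
    by_cases h : wv (UU (ext u) L * x) (UU (ext v) L * y)⁻¹ = 1
    · rw [ind_true h]
      apply le_of_eq
      symm
      apply Finset.prod_eq_one
      intro j _
      apply ind_true
      have h2 := site_eq h (j : ℤ)
      have hj := j.2
      have hj' : ((j : ℕ) : ℤ) < L := by exact_mod_cast hj
      have hj0 : (0 : ℤ) ≤ ((j : ℕ) : ℤ) := by positivity
      simp only [mul_lamp, mul_pos, UU_pos, zero_add, sub_zero] at h2
      rw [UU_lamp_in (ext u) L j hj, UU_lamp_in (ext v) L j hj,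
        hout (ext v) (j - x.pos + y.pos) (by
          rcases le_abs.1 hxy with h | h
          · left; linarith
          · right; linarith),
        hout (ext u) (j + y.pos) (by
          rcases le_abs.1 hy with h | h
          · right; linarith
          · left; linarith),
        hout (ext v) (j + y.pos) (by
          rcases le_abs.1 hy with h | h
          · right; linarith
          · left; linarith),
        hout (ext u) (j + x.pos) (by
          rcases le_abs.1 hx with h | h
          · right; linarith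
          · left; linarith),
        hout (ext v) (j + x.pos) (by
          rcases le_abs.1 hx with h | h
          · right; linarith
          · left; linarith),
        hout (ext u) (j + x.pos - y.pos) (by
          rcases le_abs.1 hxy with h | h
          · right; linarith
          · left; linarith)] at h2
      simp only [one_mul, mul_inv_rev] at h2
      have eu : ext u j = u j := by simp [ext]
      have ev : ext v j = v j := by simp [ext]
      rw [eu, ev] at h2
      simp only [hα, hβ]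
      simp only [mul_assoc] at h2 ⊢
      exact h2
    · have : ind (wv (UU (ext u) L * x) (UU (ext v) L * y)⁻¹ = 1) = 0 := by
        unfold ind; rw [if_neg h]
      rw [this]
      exact Finset.prod_nonneg fun j _ => ind_nonneg _
  calc ∑ u : Fin L → H, ∑ v : Fin L → H, ind (wv (UU (ext u) L * x) (UU (ext v) L * y)⁻¹ = 1)
      ≤ ∑ u : Fin L → H, ∑ v : Fin L → H,
        ∏ j, ind ((u j * α j) * (β j * (v j)⁻¹) = (β j * (v j)⁻¹) * (u j * α j)) :=
        Finset.sum_le_sum fun u _ => Finset.sum_le_sum fun v _ => h1 u v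
    _ = ∑ om : Fin L → H × H, ∏ j, ind (((om j).1 * α j) * (β j * (om j).2⁻¹) =
          (β j * (om j).2⁻¹) * ((om j).1 * α j)) :=
        (sum_split (fun om : Fin L → H × H => ∏ j, ind (((om j).1 * α j) * (β j * (om j).2⁻¹) =
          (β j * (om j).2⁻¹) * ((om j).1 * α j)))).symm
    _ = ∏ j : Fin L, ∑ κ : H × H, ind ((κ.1 * α j) * (β j * κ.2⁻¹) =
          (β j * κ.2⁻¹) * (κ.1 * α j)) :=
        (Fintype.prod_sum (fun (j : Fin L) (κ : H × H) => ind ((κ.1 * α j) * (β j * κ.2⁻¹) =
          (β j * κ.2⁻¹) * (κ.1 * α j)))).symm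
    _ = ∏ _j : Fin L, (18 : ℝ) := by
        apply Finset.prod_congr rfl
        intro j _
        rw [Fintype.sum_prod_type]
        exact count_comm (α j) (β j)
    _ = 18 ^ L := by simp

/-- The path of the walk determines its position. -/
def ZZ {n : ℕ} (p : Fin n → Bool × Bool) : ℤ := ∑ i, zz (p i)

theorem xx_pos {n : ℕ} (p : Fin n → Bool × Bool) (l : Fin n → H × H) :
    (xx p l).pos = ZZ p := by
  induction n with
  | zero => simp [xx, ev, ZZ]
  | succ n ih =>
    rw [← Fin.cons_self_tail p, ← Fin.cons_self_tail l, xx_cons]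
    simp only [mul_pos, sw_pos, t_pos, ih, ZZ, Fin.sum_univ_succ]
    simp

theorem good_paths {n m : ℕ} (L : ℕ) (p : Fin n → Bool × Bool) (q : Fin m → Bool × Bool)
    (hp : ∀ j : ℕ, j < L → vis (List.ofFn p) j) (hq : ∀ j : ℕ, j < L → vis (List.ofFn q) j)
    (h1 : (L : ℤ) ≤ |ZZ p|) (h2 : (L : ℤ) ≤ |ZZ q|) (h3 : (L : ℤ) ≤ |ZZ p - ZZ q|) :
    ∑ l, ∑ l', ind (wv (xx p l) (xx q l')⁻¹ = 1) ≤ (1 / 2) ^ L * (36 ^ n * 36 ^ m) := by
  have e := inv_avg p q L (fun g h => ind (wv g h⁻¹ = 1)) hp hq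
  have e2 : ∑ l, ∑ l', ∑ u : Fin L → H, ∑ v : Fin L → H,
      ind (wv (UU (ext u) L * xx p l) (UU (ext v) L * xx q l')⁻¹ = 1) ≤
      ∑ _l : Fin n → H × H, ∑ _l' : Fin m → H × H, (18 : ℝ) ^ L := by
    apply Finset.sum_le_sum
    intro l _
    apply Finset.sum_le_sum
    intro l' _
    apply count_pair <;> simp only [xx_pos] <;> assumption
  rw [← e] at e2
  have e3 : ∑ _l : Fin n → H × H, ∑ _l' : Fin m → H × H, (18 : ℝ) ^ L =
      ((1 / 2) ^ L * (36 ^ n * 36 ^ m)) * 36 ^ L := by
    simp only [Finset.sum_const, Finset.card_univ, Fintype.card_pi, Finset.prod_const,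
      Fintype.card_fin, nsmul_eq_mul, Fintype.card_prod, Fintype.card_perm]
    have : (18 : ℝ) ^ L = (1 / 2) ^ L * 36 ^ L := by rw [← mul_pow]; norm_num
    rw [this]
    simp [Nat.factorial]
    ring
  rw [e3] at e2
  exact le_of_mul_le_mul_right e2 (by positivity)

/-! ### Path estimates -/

open Polynomial in
theorem count_ZZ (n : ℕ) (j : ℤ) :
    ∑ p : Fin n → Bool × Bool, ind (ZZ p = j) ≤ (n.centralBinom : ℝ) := by
  classical
  set c : Bool × Bool → ℕ := fun q => (if q.1 then 1 else 0) + (if q.2 then 1 else 0) with hc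
  have hz : ∀ q, zz q = (c q : ℤ) - 1 := by
    rintro ⟨a, b⟩
    cases a <;> cases b <;> simp [zz, hc]
  have hZ : ∀ p : Fin n → Bool × Bool, ZZ p = ((∑ i, c (p i) : ℕ) : ℤ) - n := by
    intro p
    simp only [ZZ, hz, Finset.sum_sub_distrib]
    simp
  have hpoly : ∀ k : ℕ, ∑ p : Fin n → Bool × Bool, ind (∑ i, c (p i) = k) =
      ((2 * n).choose k : ℝ) := by
    intro k
    have h1 : ((1 + X : ℝ[X]) ^ (2 * n)) = ∑ p : Fin n → Bool × Bool, X ^ (∑ i, c (p i)) := by
      have h2 : (1 + X : ℝ[X]) ^ 2 = ∑ q : Bool × Bool, X ^ (c q) := by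
        rw [Fintype.sum_prod_type]
        simp [hc]
        ring
      rw [pow_mul, h2, Fintype.sum_pow]
      apply Finset.sum_congr rfl
      intro p _
      rw [Finset.prod_pow_eq_pow_sum]
    have h3 := congrArg (fun f : ℝ[X] => f.coeff k) h1
    simp only [coeff_one_add_X_pow, finsetSum_coeff, coeff_X_pow] at h3
    rw [h3]
    apply Finset.sum_congr rfl
    intro p _
    unfold ind
    by_cases h : ∑ i, c (p i) = k
    · rw [if_pos h, if_pos h.symm]
    · rw [if_neg h, if_neg (fun h' => h h'.symm)]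
  rcases lt_or_ge (j + n) 0 with hj | hj
  · have : ∑ p : Fin n → Bool × Bool, ind (ZZ p = j) = 0 := by
      apply Finset.sum_eq_zero
      intro p _
      unfold ind
      rw [if_neg]
      intro h
      rw [hZ] at h
      have : (0 : ℤ) ≤ ((∑ i, c (p i) : ℕ) : ℤ) := by positivity
      linarith
    rw [this]
    positivity
  · obtain ⟨k, hk⟩ := Int.eq_ofNat_of_zero_le hj
    calc ∑ p : Fin n → Bool × Bool, ind (ZZ p = j)
        ≤ ∑ p : Fin n → Bool × Bool, ind (∑ i, c (p i) = k) := by
          apply Finset.sum_le_sum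
          intro p _
          apply ind_mono
          intro h
          rw [hZ] at h
          have : ((∑ i, c (p i) : ℕ) : ℤ) = k := by rw [← hk]; linarith
          exact_mod_cast this
      _ = ((2 * n).choose k : ℝ) := hpoly k
      _ ≤ (n.centralBinom : ℝ) := by exact_mod_cast Nat.choose_le_centralBinom k n

theorem centralBinom_bound (n : ℕ) :
    (n.centralBinom : ℝ) ^ 2 * (2 * n + 1) ≤ (4 ^ n) ^ 2 := by
  induction n with
  | zero => simp
  | succ n ih =>
    have h := Nat.succ_mul_centralBinom_succ n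
    have h' : ((n : ℝ) + 1) * ((n + 1).centralBinom : ℝ) =
        2 * (2 * n + 1) * (n.centralBinom : ℝ) := by exact_mod_cast h
    have h2 : ((n : ℝ) + 1) ^ 2 * (((n + 1).centralBinom : ℝ) ^ 2 * (2 * ((n + 1 : ℕ) : ℝ) + 1)) ≤
        ((n : ℝ) + 1) ^ 2 * (4 ^ (n + 1)) ^ 2 := by
      calc ((n : ℝ) + 1) ^ 2 * (((n + 1).centralBinom : ℝ) ^ 2 * (2 * ((n + 1 : ℕ) : ℝ) + 1))
          = (((n : ℝ) + 1) * ((n + 1).centralBinom : ℝ)) ^ 2 * (2 * n + 3) := by
            push_cast; ring
        _ = 4 * (2 * n + 1) * (2 * n + 3) * ((n.centralBinom : ℝ) ^ 2 * (2 * n + 1)) := by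
            rw [h']; ring
        _ ≤ 4 * (2 * n + 1) * (2 * n + 3) * (4 ^ n) ^ 2 := by gcongr
        _ ≤ 4 * (2 * n + 2) ^ 2 * (4 ^ n) ^ 2 := by
            have : (4 : ℝ) * (2 * n + 1) * (2 * n + 3) ≤ 4 * (2 * n + 2) ^ 2 := by nlinarith
            gcongr
        _ = ((n : ℝ) + 1) ^ 2 * (4 ^ (n + 1)) ^ 2 := by ring
    exact le_of_mul_le_mul_left h2 (by positivity)

theorem centralBinom_tendsto :
    Tendsto (fun n : ℕ => (n.centralBinom : ℝ) / 4 ^ n) atTop (𝓝 0) := by
  have h1 : ∀ n : ℕ, (n.centralBinom : ℝ) / 4 ^ n ≤ Real.sqrt (1 / (2 * n + 1)) := by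
    intro n
    apply Real.le_sqrt_of_sq_le
    rw [div_pow, div_le_div_iff₀ (by positivity) (by positivity), one_mul]
    exact centralBinom_bound n
  have h2 : Tendsto (fun n : ℕ => Real.sqrt (1 / (2 * (n : ℝ) + 1))) atTop (𝓝 0) := by
    rw [← Real.sqrt_zero]
    apply (Real.continuous_sqrt.tendsto 0).comp
    have h3 : Tendsto (fun n : ℕ => 2 * (n : ℝ) + 1) atTop atTop :=
      tendsto_atTop_add_const_right _ _
        (tendsto_natCast_atTop_atTop.const_mul_atTop (by norm_num))
    refine h3.inv_tendsto_atTop.congr fun n => ?_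
    simp
  exact squeeze_zero (fun n => by positivity) h1 h2

/-- The walk stays below `d` at all departure times. -/
def below : List (Bool × Bool) → ℤ → Prop
  | [], _ => True
  | p :: l, d => 0 < d ∧ below l (d - zz p)

theorem vis_of_not_below (l : List (Bool × Bool)) (d : ℤ) (h : ¬ below l d) (j : ℤ)
    (hj : 0 ≤ j) (hjd : j ≤ d) : vis l j := by
  induction l generalizing d j with
  | nil => exact absurd trivial h
  | cons p l ih =>
    rcases hj.eq_or_lt with h0 | h0
    · left; exact h0.symm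
    · right
      have hz : zz p ≤ 1 := by
        rcases p with ⟨a, b⟩
        cases a <;> cases b <;> simp [zz]
      apply ih (d - zz p)
      · intro h2
        exact h ⟨by linarith, h2⟩
      · linarith
      · linarith

/-- Fraction of paths that stay below `d`. -/
noncomputable def rr (n : ℕ) (d : ℤ) : ℝ :=
  (∑ p : Fin n → Bool × Bool, ind (below (List.ofFn p) d)) / 4 ^ n

theorem rr_zero (d : ℤ) : rr 0 d = 1 := by
  simp [rr, below, ind]

theorem rr_succ_neg (n : ℕ) (d : ℤ) (hd : d ≤ 0) : rr (n + 1) d = 0 := by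
  rw [rr, Finset.sum_eq_zero, zero_div]
  intro p _
  unfold ind
  rw [if_neg]
  rw [List.ofFn_succ]
  intro h
  exact absurd h.1 (by linarith)

theorem rr_succ_pos (n : ℕ) (d : ℤ) (hd : 0 < d) :
    rr (n + 1) d = 1 / 2 * rr n d + 1 / 4 * rr n (d - 1) + 1 / 4 * rr n (d + 1) := by
  have h1 : ∑ p : Fin (n + 1) → Bool × Bool, ind (below (List.ofFn p) d) =
      ∑ k : Bool × Bool, ∑ p : Fin n → Bool × Bool, ind (below (List.ofFn p) (d - zz k)) := by
    rw [sum_cons]
    apply Finset.sum_congr rfl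
    intro k _
    apply Finset.sum_congr rfl
    intro p _
    rw [List.ofFn_cons]
    have : below (k :: List.ofFn p) d ↔ below (List.ofFn p) (d - zz k) :=
      ⟨fun h => h.2, fun h => ⟨hd, h⟩⟩
    simp only [this]
  rw [rr, h1, Fintype.sum_prod_type]
  simp [zz, rr]
  ring

theorem rr_nonneg (n : ℕ) (d : ℤ) : 0 ≤ rr n d :=
  div_nonneg (Finset.sum_nonneg fun _ _ => ind_nonneg _) (by positivity)

theorem rr_anti (n : ℕ) (d : ℤ) : rr (n + 1) d ≤ rr n d := by
  induction n generalizing d with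
  | zero =>
    rcases le_or_gt d 0 with hd | hd
    · rw [rr_succ_neg _ _ hd]; exact rr_nonneg _ _
    · rw [rr_succ_pos _ _ hd]
      simp only [rr_zero]
      norm_num
  | succ n ih =>
    rcases le_or_gt d 0 with hd | hd
    · rw [rr_succ_neg _ _ hd]; exact rr_nonneg _ _
    · have h1 := rr_succ_pos (n + 1) d hd
      have h2 := rr_succ_pos n d hd
      have h3 := ih d
      have h4 := ih (d - 1)
      have h5 := ih (d + 1)
      linarith

theorem rr_le_one (n : ℕ) (d : ℤ) : rr n d ≤ 1 := by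
  induction n with
  | zero => rw [rr_zero]
  | succ n ih => exact (rr_anti n d).trans ih

theorem rr_tendsto (d : ℤ) : Tendsto (fun n => rr n d) atTop (𝓝 0) := by
  have hlim : ∀ d : ℤ, ∃ r : ℝ, Tendsto (fun n => rr n d) atTop (𝓝 r) := fun d =>
    ⟨_, tendsto_atTop_ciInf (antitone_nat_of_succ_le fun n => rr_anti n d)
      ⟨0, by rintro _ ⟨n, rfl⟩; exact rr_nonneg n d⟩⟩
  choose r hr using hlim
  have h0 : ∀ d ≤ 0, r d = 0 := by
    intro d hd
    refine tendsto_nhds_unique (hr d) ?_
    rw [← tendsto_add_atTop_iff_nat 1]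
    simp only [rr_succ_neg _ _ hd]
    exact tendsto_const_nhds
  have h1 : ∀ d > 0, r d = 1 / 2 * r d + 1 / 4 * r (d - 1) + 1 / 4 * r (d + 1) := by
    intro d hd
    have h2 := (hr d)
    rw [← tendsto_add_atTop_iff_nat 1] at h2
    simp only [rr_succ_pos _ _ hd] at h2
    exact tendsto_nhds_unique h2
      (((hr d).const_mul _).add ((hr (d - 1)).const_mul _) |>.add ((hr (d + 1)).const_mul _))
  have h2 : ∀ d, r d ≤ 1 := fun d => le_of_tendsto' (hr d) fun n => rr_le_one n d
  have h3 : ∀ d, 0 ≤ r d := fun d => ge_of_tendsto' (hr d) fun n => rr_nonneg n d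
  have h4 : ∀ m : ℕ, r m = m * r 1 ∧ r (m + 1) = (m + 1) * r 1 := by
    intro m
    induction m with
    | zero => simp [h0 0 le_rfl]
    | succ m ih =>
      refine ⟨by push_cast; exact ih.2, ?_⟩
      have h5 := h1 ((m : ℤ) + 1) (by positivity)
      rw [add_sub_cancel_right, ih.1, ih.2] at h5
      push_cast
      linarith
  have h5 : r 1 = 0 := by
    by_contra hne
    have hpos : 0 < r 1 := lt_of_le_of_ne (h3 1) (Ne.symm hne)
    obtain ⟨m, hm⟩ := exists_nat_gt (1 / r 1)
    rw [div_lt_iff₀ hpos] at hm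
    have := h2 m
    rw [(h4 m).1] at this
    linarith
  have h6 : r d = 0 := by
    rcases le_or_gt d 0 with hd | hd
    · exact h0 d hd
    · obtain ⟨m, rfl⟩ := Int.eq_ofNat_of_zero_le hd.le
      rw [(h4 m).1, h5, mul_zero]
  rw [← h6]
  exact hr d

/-! ### Putting things together -/

/-- Time reversal of the symmetric walk. -/
theorem sum_inv {n : ℕ} (F : W → ℝ) :
    ∑ om : Fin n → (Bool × Bool) × (H × H), F (ev eMu om) =
      ∑ om : Fin n → (Bool × Bool) × (H × H), F (ev eMu om)⁻¹ := by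
  set ι : (Bool × Bool) × (H × H) → (Bool × Bool) × (H × H) :=
    fun k => ((!k.1.1, !k.1.2), (k.2.2⁻¹, k.2.1⁻¹)) with hι
  have hinv : Function.Involutive ι := by
    rintro ⟨⟨a, b⟩, h, h'⟩
    simp [hι]
  have hz : ∀ p : Bool × Bool, zz (!p.1, !p.2) = - zz p := by
    rintro ⟨a, b⟩
    cases a <;> cases b <;> simp [zz]
  have hsw : ∀ h, (sw 0 h)⁻¹ = sw 0 h⁻¹ := by
    intro h
    rw [inv_eq_iff_mul_eq_one, sw_mul_sw, mul_inv_cancel, sw_one]
  have ht : ∀ k, (t k)⁻¹ = t (-k) := by
    intro k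
    rw [inv_eq_iff_mul_eq_one, t_mul, add_neg_cancel, t_zero]
  have he : ∀ k, eMu (ι k) = (eMu k)⁻¹ := by
    rintro ⟨p, h, h'⟩
    simp only [eMu, hι, mul_inv_rev, hsw, ht, hz, mul_assoc]
  induction n generalizing F with
  | zero => simp [ev_zero]
  | succ n ih =>
    rw [sum_cons, sum_snoc]
    refine (Fintype.sum_equiv hinv.toPerm _ _ fun k => ?_)
    simp only [ev_cons, ev_snoc, mul_inv_rev]
    rw [ih (fun g => F (eMu k * g))]
    apply Finset.sum_congr rfl
    intro om _
    change _ = F ((eMu (ι k))⁻¹ * _)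
    rw [he, inv_inv]

theorem card_bad_near {n : ℕ} (L : ℕ) (j : ℤ) :
    ∑ p : Fin n → Bool × Bool, ind (¬ (L : ℤ) ≤ |ZZ p - j|) ≤
      2 * L * (n.centralBinom : ℝ) := by
  have h1 : ∀ p : Fin n → Bool × Bool, ind (¬ (L : ℤ) ≤ |ZZ p - j|) ≤
      ∑ i ∈ Finset.Ico (j - L) (j + L), ind (ZZ p = i) := by
    intro p
    by_cases h : ¬ (L : ℤ) ≤ |ZZ p - j|
    · rw [ind_true h]
      have hmem : ZZ p ∈ Finset.Ico (j - L) (j + L) := by
        rw [Finset.mem_Ico]
        push Not at h
        rw [abs_lt] at h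
        constructor <;> linarith [h.1, h.2]
      calc (1 : ℝ) = ind (ZZ p = ZZ p) := (ind_true rfl).symm
        _ ≤ _ := Finset.single_le_sum (f := fun i => ind (ZZ p = i))
            (fun i _ => ind_nonneg _) hmem
    · have : ind (¬ (L : ℤ) ≤ |ZZ p - j|) = 0 := by unfold ind; rw [if_neg h]
      rw [this]
      exact Finset.sum_nonneg fun _ _ => ind_nonneg _
  calc ∑ p : Fin n → Bool × Bool, ind (¬ (L : ℤ) ≤ |ZZ p - j|)
      ≤ ∑ p : Fin n → Bool × Bool, ∑ i ∈ Finset.Ico (j - L) (j + L), ind (ZZ p = i) :=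
        Finset.sum_le_sum fun p _ => h1 p
    _ = ∑ i ∈ Finset.Ico (j - L) (j + L), ∑ p : Fin n → Bool × Bool, ind (ZZ p = i) :=
        Finset.sum_comm
    _ ≤ ∑ _i ∈ Finset.Ico (j - L) (j + L), (n.centralBinom : ℝ) :=
        Finset.sum_le_sum fun i _ => count_ZZ n i
    _ = 2 * L * (n.centralBinom : ℝ) := by
        rw [Finset.sum_const, Int.card_Ico]
        have : (j + L - (j - L)).toNat = 2 * L := by omega
        rw [this, nsmul_eq_mul]
        push_cast
        ring

theorem card_bad_vis {n : ℕ} (L : ℕ) :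
    ∑ p : Fin n → Bool × Bool, ind (¬ ∀ j : ℕ, j < L → vis (List.ofFn p) j) ≤
      rr n L * 4 ^ n := by
  rw [rr, div_mul_cancel₀ _ (by positivity)]
  apply Finset.sum_le_sum
  intro p _
  apply ind_mono
  intro h
  by_contra hb
  apply h
  intro j hj
  exact vis_of_not_below _ _ hb _ (by positivity) (by exact_mod_cast hj.le)

theorem pair_bound {n : ℕ} (L : ℕ) (p q : Fin n → Bool × Bool) :
    ∑ l, ∑ l', ind (wv (xx p l) (xx q l')⁻¹ = 1) ≤
      ((1 / 2) ^ L + (ind (¬ (L : ℤ) ≤ |ZZ p - 0|) + ind (¬ (L : ℤ) ≤ |ZZ q - 0|) +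
        ind (¬ (L : ℤ) ≤ |ZZ p - ZZ q|) + ind (¬ ∀ j : ℕ, j < L → vis (List.ofFn p) j) +
        ind (¬ ∀ j : ℕ, j < L → vis (List.ofFn q) j))) * (36 ^ n * 36 ^ n) := by
  have hpos : (0 : ℝ) < 36 ^ n * 36 ^ n := by positivity
  have htriv : ∑ l, ∑ l', ind (wv (xx p l) (xx q l')⁻¹ = 1) ≤ 36 ^ n * 36 ^ n := by
    calc ∑ l, ∑ l', ind (wv (xx p l) (xx q l')⁻¹ = 1)
        ≤ ∑ _l : Fin n → H × H, ∑ _l' : Fin n → H × H, (1 : ℝ) :=
          Finset.sum_le_sum fun l _ => Finset.sum_le_sum fun l' _ => ind_le_one _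
      _ = 36 ^ n * 36 ^ n := by
          simp [Finset.card_univ, Fintype.card_pi, Fintype.card_perm, Nat.factorial]
  have n1 := ind_nonneg (¬ (L : ℤ) ≤ |ZZ p - 0|)
  have n2 := ind_nonneg (¬ (L : ℤ) ≤ |ZZ q - 0|)
  have n3 := ind_nonneg (¬ (L : ℤ) ≤ |ZZ p - ZZ q|)
  have n4 := ind_nonneg (¬ ∀ j : ℕ, j < L → vis (List.ofFn p) j)
  have n5 := ind_nonneg (¬ ∀ j : ℕ, j < L → vis (List.ofFn q) j)
  have n6 : (0 : ℝ) < (1 / 2) ^ L := by positivity
  by_cases h1 : (L : ℤ) ≤ |ZZ p - 0|
  swap
  · have := ind_true h1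
    exact htriv.trans (le_mul_of_one_le_left hpos.le (by linarith))
  by_cases h2 : (L : ℤ) ≤ |ZZ q - 0|
  swap
  · have := ind_true h2
    exact htriv.trans (le_mul_of_one_le_left hpos.le (by linarith))
  by_cases h3 : (L : ℤ) ≤ |ZZ p - ZZ q|
  swap
  · have := ind_true h3
    exact htriv.trans (le_mul_of_one_le_left hpos.le (by linarith))
  by_cases h4 : ∀ j : ℕ, j < L → vis (List.ofFn p) j
  swap
  · have := ind_true h4
    exact htriv.trans (le_mul_of_one_le_left hpos.le (by linarith))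
  by_cases h5 : ∀ j : ℕ, j < L → vis (List.ofFn q) j
  swap
  · have := ind_true h5
    exact htriv.trans (le_mul_of_one_le_left hpos.le (by linarith))
  rw [sub_zero] at h1 h2
  refine (good_paths L p q h4 h5 h1 h2 h3).trans ?_
  apply mul_le_mul_of_nonneg_right _ hpos.le
  linarith

/-- The fraction for the symmetric walk. -/
theorem frac_bound (L n : ℕ) :
    (∑ x : Fin n → (Bool × Bool) × (H × H), ∑ y : Fin n → (Bool × Bool) × (H × H),
      ind (FreeGroup.lift ![ev stepMu x, ev stepMu y] word = 1)) /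
        (Fintype.card ((Bool × Bool) × (H × H)) : ℝ) ^ (2 * n) ≤
    (1 / 2) ^ L + 6 * L * ((n.centralBinom : ℝ) / 4 ^ n) + 2 * rr n L := by
  have hcard : Fintype.card ((Bool × Bool) × (H × H)) = 144 := by
    simp [Fintype.card_perm, Nat.factorial]
  rw [hcard, div_le_iff₀ (by positivity)]
  have h1 : (∑ x : Fin n → (Bool × Bool) × (H × H), ∑ y : Fin n → (Bool × Bool) × (H × H),
      ind (FreeGroup.lift ![ev stepMu x, ev stepMu y] word = 1)) =
      ∑ x : Fin n → (Bool × Bool) × (H × H), ∑ y : Fin n → (Bool × Bool) × (H × H),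
        ind (wv (ev eMu x) (ev eMu y)⁻¹ = 1) := by
    apply Finset.sum_congr rfl
    intro x _
    rw [← sum_inv (fun g => ind (wv (ev eMu x) g = 1))]
    apply Finset.sum_congr rfl
    intro y _
    congr 1
    rw [lift_word, eq_iff_iff]
    have hx : ((ev stepMu x : G) : W) = ev eMu x := by
      rw [ev_coe]; rfl
    have hy : ((ev stepMu y : G) : W) = ev eMu y := by
      rw [ev_coe]; rfl
    rw [← hx, ← hy, ← wv_coe]
    constructor
    · intro h
      rw [h]
      rfl
    · intro h
      exact Subtype.ext h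
  rw [h1, sum_split]
  have h2 : ∀ p : Fin n → Bool × Bool,
      (∑ l : Fin n → H × H, ∑ y : Fin n → (Bool × Bool) × (H × H),
        ind (wv (ev eMu fun i => (p i, l i)) (ev eMu y)⁻¹ = 1)) =
      ∑ q : Fin n → Bool × Bool, ∑ l, ∑ l', ind (wv (xx p l) (xx q l')⁻¹ = 1) := by
    intro p
    rw [Finset.sum_comm (s := Finset.univ) (t := Finset.univ)
      (f := fun (q : Fin n → Bool × Bool) (l : Fin n → H × H) =>
        ∑ l', ind (wv (xx p l) (xx q l')⁻¹ = 1))]
    apply Finset.sum_congr rfl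
    intro l _
    rw [sum_split]
    rfl
  rw [Finset.sum_congr rfl fun p _ => h2 p]
  have h3 : ∑ p : Fin n → Bool × Bool, ∑ q : Fin n → Bool × Bool,
      ∑ l, ∑ l', ind (wv (xx p l) (xx q l')⁻¹ = 1) ≤
      ∑ p : Fin n → Bool × Bool, ∑ q : Fin n → Bool × Bool,
      ((1 / 2) ^ L + (ind (¬ (L : ℤ) ≤ |ZZ p - 0|) + ind (¬ (L : ℤ) ≤ |ZZ q - 0|) +
        ind (¬ (L : ℤ) ≤ |ZZ p - ZZ q|) + ind (¬ ∀ j : ℕ, j < L → vis (List.ofFn p) j) +
        ind (¬ ∀ j : ℕ, j < L → vis (List.ofFn q) j))) * (36 ^ n * 36 ^ n) :=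
    Finset.sum_le_sum fun p _ => Finset.sum_le_sum fun q _ => pair_bound L p q
  refine h3.trans ?_
  simp only [← Finset.sum_mul, Finset.sum_add_distrib]
  have c1 : ∑ _p : Fin n → Bool × Bool, ∑ _q : Fin n → Bool × Bool, ((1 : ℝ) / 2) ^ L =
      (1 / 2) ^ L * (4 ^ n * 4 ^ n) := by
    simp only [Finset.sum_const, Finset.card_univ, Fintype.card_pi, Finset.prod_const,
      Fintype.card_fin, nsmul_eq_mul, Fintype.card_prod, Fintype.card_bool]
    push_cast
    ring
  have c2 : ∑ p : Fin n → Bool × Bool, ∑ _q : Fin n → Bool × Bool,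
      ind (¬ (L : ℤ) ≤ |ZZ p - 0|) ≤ 2 * L * (n.centralBinom : ℝ) * 4 ^ n := by
    simp only [Finset.sum_const, Finset.card_univ, Fintype.card_pi, Finset.prod_const,
      Fintype.card_fin, nsmul_eq_mul, Fintype.card_prod, Fintype.card_bool, ← Finset.mul_sum]
    have := card_bad_near (n := n) L 0
    push_cast
    rw [mul_comm]
    exact mul_le_mul_of_nonneg_right this (by positivity)
  have c3 : ∑ _p : Fin n → Bool × Bool, ∑ q : Fin n → Bool × Bool,
      ind (¬ (L : ℤ) ≤ |ZZ q - 0|) ≤ 2 * L * (n.centralBinom : ℝ) * 4 ^ n := by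
    rw [Finset.sum_comm]
    exact c2
  have c4 : ∑ p : Fin n → Bool × Bool, ∑ q : Fin n → Bool × Bool,
      ind (¬ (L : ℤ) ≤ |ZZ p - ZZ q|) ≤ 2 * L * (n.centralBinom : ℝ) * 4 ^ n := by
    rw [Finset.sum_comm]
    calc ∑ q : Fin n → Bool × Bool, ∑ p : Fin n → Bool × Bool,
          ind (¬ (L : ℤ) ≤ |ZZ p - ZZ q|)
        ≤ ∑ _q : Fin n → Bool × Bool, 2 * L * (n.centralBinom : ℝ) :=
          Finset.sum_le_sum fun q _ => card_bad_near L (ZZ q)
      _ = 2 * L * (n.centralBinom : ℝ) * 4 ^ n := by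
          simp only [Finset.sum_const, Finset.card_univ, Fintype.card_pi, Finset.prod_const,
            Fintype.card_fin, nsmul_eq_mul, Fintype.card_prod, Fintype.card_bool]
          push_cast
          ring
  have c5 : ∑ p : Fin n → Bool × Bool, ∑ _q : Fin n → Bool × Bool,
      ind (¬ ∀ j : ℕ, j < L → vis (List.ofFn p) j) ≤ rr n L * 4 ^ n * 4 ^ n := by
    simp only [Finset.sum_const, Finset.card_univ, Fintype.card_pi, Finset.prod_const,
      Fintype.card_fin, nsmul_eq_mul, Fintype.card_prod, Fintype.card_bool, ← Finset.mul_sum]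
    have := card_bad_vis (n := n) L
    push_cast
    rw [mul_comm]
    exact mul_le_mul_of_nonneg_right this (by positivity)
  have c6 : ∑ _p : Fin n → Bool × Bool, ∑ q : Fin n → Bool × Bool,
      ind (¬ ∀ j : ℕ, j < L → vis (List.ofFn q) j) ≤ rr n L * 4 ^ n * 4 ^ n := by
    rw [Finset.sum_comm]
    exact c5
  rw [c1]
  have hfin : ((1 / 2) ^ L + 6 * L * ((n.centralBinom : ℝ) / 4 ^ n) + 2 * rr n L) *
      ((144 : ℕ) : ℝ) ^ (2 * n) =
      ((1 / 2) ^ L * (4 ^ n * 4 ^ n) + (3 * (2 * L * (n.centralBinom : ℝ) * 4 ^ n) +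
        2 * (rr n L * 4 ^ n * 4 ^ n))) * (36 ^ n * 36 ^ n) := by
    have e1 : ((144 : ℕ) : ℝ) ^ (2 * n) = (4 ^ n * 4 ^ n) * (36 ^ n * 36 ^ n) := by
      push_cast
      rw [two_mul, pow_add, ← mul_pow, ← mul_pow, ← mul_pow, ← mul_pow]
      norm_num
    rw [e1]
    field_simp
    ring
  rw [hfin]
  apply mul_le_mul_of_nonneg_right _ (by positivity)
  linarith

theorem frac_tendsto : Tendsto (fun n : ℕ =>
    (∑ x : Fin n → (Bool × Bool) × (H × H), ∑ y : Fin n → (Bool × Bool) × (H × H),
      ind (FreeGroup.lift ![ev stepMu x, ev stepMu y] word = 1)) /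
        (Fintype.card ((Bool × Bool) × (H × H)) : ℝ) ^ (2 * n)) atTop (𝓝 0) := by
  rw [Metric.tendsto_atTop]
  intro ε hε
  obtain ⟨L, hL⟩ := exists_pow_lt_of_lt_one (half_pos hε) (by norm_num : (1 / 2 : ℝ) < 1)
  have h1 : Tendsto (fun n : ℕ => 6 * (L : ℝ) * ((n.centralBinom : ℝ) / 4 ^ n) + 2 * rr n L)
      atTop (𝓝 0) := by
    have := (centralBinom_tendsto.const_mul (6 * (L : ℝ))).add ((rr_tendsto L).const_mul 2)
    simpa using this
  rw [Metric.tendsto_atTop] at h1
  obtain ⟨N, hN⟩ := h1 (ε / 2) (half_pos hε)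
  refine ⟨N, fun n hn => ?_⟩
  have h2 := hN n hn
  rw [Real.dist_eq, sub_zero] at h2 ⊢
  have h3 := frac_bound L n
  have h4 : 0 ≤ (∑ x : Fin n → (Bool × Bool) × (H × H),
      ∑ y : Fin n → (Bool × Bool) × (H × H),
      ind (FreeGroup.lift ![ev stepMu x, ev stepMu y] word = 1)) /
        (Fintype.card ((Bool × Bool) × (H × H)) : ℝ) ^ (2 * n) :=
    div_nonneg (Finset.sum_nonneg fun _ _ => Finset.sum_nonneg fun _ _ => ind_nonneg _)
      (by positivity)
  rw [abs_of_nonneg h4]
  have h5 := le_abs_self (6 * (L : ℝ) * ((n.centralBinom : ℝ) / 4 ^ n) + 2 * rr n L)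
  linarith

theorem Pr_mu_zero : Pr mu word = 0 := by
  have h : Tendsto (lawMass mu word) atTop (𝓝 0) := by
    have h1 := ENNReal.tendsto_ofReal frac_tendsto
    rw [ENNReal.ofReal_zero] at h1
    refine h1.congr fun n => ?_
    rw [mu, lawMass_eq_ofReal]
  exact h.limsup_eq

/-! ### Both are random walk measures -/

theorem gen_of {M : Submonoid G} (h1 : (⟨t 1, t_mem 1⟩ : G) ∈ M)
    (h2 : (⟨t (-1), t_mem (-1)⟩ : G) ∈ M) (h3 : ∀ h : H, (⟨sw 0 h, sw_mem h⟩ : G) ∈ M) :
    M = ⊤ := by
  have key : ∀ g (hg : g ∈ Subgroup.closure gens),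
      (⟨g, hg⟩ : G) ∈ M ∧ (⟨g, hg⟩ : G)⁻¹ ∈ M := by
    intro g hg
    induction hg using Subgroup.closure_induction with
    | mem x hx =>
      rcases hx with rfl | ⟨h, rfl⟩
      · refine ⟨h1, ?_⟩
        have e : (⟨t 1, Subgroup.subset_closure (Or.inl rfl)⟩ : G)⁻¹ =
            ⟨t (-1), t_mem (-1)⟩ := by
          rw [inv_eq_iff_mul_eq_one]
          apply Subtype.ext
          change t 1 * t (-1) = 1
          rw [t_mul]
          rfl
        rw [e]
        exact h2
      · refine ⟨h3 h, ?_⟩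
        have e : (⟨sw 0 h, Subgroup.subset_closure (Or.inr ⟨h, rfl⟩)⟩ : G)⁻¹ =
            ⟨sw 0 h⁻¹, sw_mem h⁻¹⟩ := by
          rw [inv_eq_iff_mul_eq_one]
          apply Subtype.ext
          change sw 0 h * sw 0 h⁻¹ = 1
          rw [sw_mul_sw, mul_inv_cancel, sw_one]
        rw [e]
        exact h3 _
    | one =>
      refine ⟨one_mem _, ?_⟩
      have e : (⟨1, one_mem _⟩ : G)⁻¹ = 1 := Subtype.ext inv_one
      rw [e]
      exact one_mem _
    | mul x y hx hy hx' hy' =>
      refine ⟨mul_mem hx'.1 hy'.1, ?_⟩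
      have h3 := mul_mem hy'.2 hx'.2
      rw [← mul_inv_rev] at h3
      exact h3
    | inv x hx hx' =>
      refine ⟨hx'.2, ?_⟩
      have h3 := hx'.1
      rw [← inv_inv (⟨x, hx⟩ : G)] at h3
      exact h3
  rw [eq_top_iff]
  rintro ⟨g, hg⟩ -
  exact (key g hg).1

theorem isStep_map {K : Type} [Fintype K] [Nonempty K] (e : K → G)
    (h1 : ∃ k, e k = 1) (h2 : Submonoid.closure (Set.range e) = ⊤) :
    IsStep ((PMF.uniformOfFintype K).map e) := by
  have hs : ((PMF.uniformOfFintype K).map e).support = Set.range e := by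
    rw [PMF.support_map, PMF.support_uniformOfFintype, Set.top_eq_univ, Set.image_univ]
  refine ⟨?_, ?_, ?_⟩
  · rw [hs]; exact Set.finite_range e
  · rw [hs]; exact h2
  · rw [pos_iff_ne_zero, ← PMF.mem_support_iff, hs]
    exact h1

theorem isStep_nu : IsStep nu := by
  apply isStep_map
  · exact ⟨19, by simp [stepNu]⟩
  · have hm : ∀ k, stepNu k ∈ Submonoid.closure (Set.range stepNu) :=
      fun k => Submonoid.subset_closure ⟨k, rfl⟩
    have ha : (⟨sw 0 (Equiv.swap 0 1), sw_mem _⟩ : G) ∈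
        Submonoid.closure (Set.range stepNu) := by
      have := hm 17; simpa [stepNu] using this
    have hb : (⟨sw 0 (Equiv.swap 1 2), sw_mem _⟩ : G) ∈
        Submonoid.closure (Set.range stepNu) := by
      have := hm 18; simpa [stepNu] using this
    apply gen_of
    · have := hm 0; simpa [stepNu] using this
    · have := hm 16; simpa [stepNu] using this
    · intro h
      have hmul : ∀ g h : H, (⟨sw 0 g, sw_mem g⟩ : G) ∈ Submonoid.closure (Set.range stepNu) →
          (⟨sw 0 h, sw_mem h⟩ : G) ∈ Submonoid.closure (Set.range stepNu) →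
          (⟨sw 0 (g * h), sw_mem (g * h)⟩ : G) ∈ Submonoid.closure (Set.range stepNu) := by
        intro g h hg hh
        have := mul_mem hg hh
        convert this using 1
        exact Subtype.ext (sw_mul_sw 0 g h).symm
      have hall : ∀ h : H, h = Equiv.swap 0 1 * Equiv.swap 0 1 ∨ h = Equiv.swap 0 1 ∨
          h = Equiv.swap 1 2 ∨ h = Equiv.swap 0 1 * Equiv.swap 1 2 ∨
          h = Equiv.swap 1 2 * Equiv.swap 0 1 ∨
          h = Equiv.swap 0 1 * (Equiv.swap 1 2 * Equiv.swap 0 1) := by decide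
      rcases hall h with rfl | rfl | rfl | rfl | rfl | rfl
      · exact hmul _ _ ha ha
      · exact ha
      · exact hb
      · exact hmul _ _ ha hb
      · exact hmul _ _ hb ha
      · exact hmul _ _ ha (hmul _ _ hb ha)

theorem isStep_mu : IsStep mu := by
  have e1 : ∀ (p : Bool × Bool) (g h : H),
      stepMu (p, (g, h)) = ⟨sw 0 g * t (zz p) * sw 0 h,
        mul_mem (mul_mem (sw_mem g) (t_mem _)) (sw_mem h)⟩ := fun p g h => rfl
  apply isStep_map
  · refine ⟨((true, false), (1, 1)), ?_⟩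
    rw [e1]
    apply Subtype.ext
    change sw 0 1 * t (zz (true, false)) * sw 0 1 = 1
    simp [sw_one, zz, t_zero]
  · have hm : ∀ k, stepMu k ∈ Submonoid.closure (Set.range stepMu) :=
      fun k => Submonoid.subset_closure ⟨k, rfl⟩
    apply gen_of
    · convert hm ((true, true), (1, 1)) using 1
      rw [e1]
      apply Subtype.ext
      change t 1 = sw 0 1 * t (zz (true, true)) * sw 0 1
      simp [sw_one, zz]
    · convert hm ((false, false), (1, 1)) using 1
      rw [e1]
      apply Subtype.ext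
      change t (-1) = sw 0 1 * t (zz (false, false)) * sw 0 1
      simp [sw_one, zz]
    · intro h
      convert hm ((true, false), (h, 1)) using 1
      rw [e1]
      apply Subtype.ext
      change sw 0 h = sw 0 h * t (zz (true, false)) * sw 0 1
      simp [sw_one, zz, t_zero]

theorem result : ∃ (G : Type) (_ : Group G) (w : FreeGroup (Fin 2)) (mu nu : PMF G),
    w ≠ 1 ∧ IsStep mu ∧ IsStep nu ∧ Pr mu w = 0 ∧ 0 < Pr nu w := by
  refine ⟨G, inferInstance, word, mu, nu, ?_, isStep_mu, isStep_nu, Pr_mu_zero, Pr_nu_pos⟩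
  intro h
  have h1 := Pr_mu_zero
  rw [h] at h1
  have h2 : ∀ n, lawMass mu (1 : FreeGroup (Fin 2)) n = 1 := by
    intro n
    have hK : Fintype.card ((Bool × Bool) × (H × H)) = 144 := by
      simp [Fintype.card_perm, Nat.factorial]
    rw [mu, lawMass_eq_ofReal, hK]
    have h3 : (∑ x : Fin n → (Bool × Bool) × (H × H), ∑ y : Fin n → (Bool × Bool) × (H × H),
      ind (FreeGroup.lift ![ev stepMu x, ev stepMu y] (1 : FreeGroup (Fin 2)) = 1)) =
        ((144 : ℕ) : ℝ) ^ (2 * n) := by
      have h4 : ∀ x y : Fin n → (Bool × Bool) × (H × H),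
          ind (FreeGroup.lift ![ev stepMu x, ev stepMu y] (1 : FreeGroup (Fin 2)) = 1) = 1 :=
        fun x y => ind_true (map_one _)
      simp only [h4]
      simp [Finset.card_univ, Fintype.card_perm, Nat.factorial]
      rw [two_mul, pow_add]
    rw [h3, div_self (by positivity), ENNReal.ofReal_one]
  have h3 : Pr mu (1 : FreeGroup (Fin 2)) = 1 := by
    unfold Pr
    have : lawMass mu (1 : FreeGroup (Fin 2)) = fun _ => 1 := funext h2
    rw [this]
    exact limsup_const 1
  rw [h3] at h1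
  exact one_ne_zero h1

end Pool.Agent.Results.MP_b50549_al.TwoWalks
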